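import Mathlib
import Pool.Agent.Helper95.FL.Stmts2

set_option autoImplicit false

/-!
# Project FL (XT), pieces I-1, I-2: `StValid`, `StEval`
-/

namespace Pool.Agent.Helper90.FL

open Pool.Agent.Helper22.ETModel
open Pool.Agent.Helper95.FL
open scoped Classical

section

variable {X V : Type} {𝒞 : Cx X V} {n : ℕ}

theorem ty_edge {e : V × V} (h : 𝒞.IsEdge e) : 𝒞.ty e.2 = 𝒞.ty e.1 + 1 := by
  obtain ⟨s, x, rfl⟩ := h
  simp only [Cx.edge, 𝒞.ty_vert]
  fin_cases s <;> rfl

theorem fin3_ne (a : Fin 3) : a ≠ a + 1 := by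
  revert a; decide

theorem fin3_ne' (a : Fin 3) : a ≠ a + 1 + 1 := by
  revert a; decide

theorem nu_ne (E : Emb 𝒞 n) {e : V × V} (h : 𝒞.IsEdge e) : E.ν e.1 ≠ E.ν e.2 := by
  intro hν
  have h1 := E.sep _ _ hν
  have h2 := ty_edge h
  rw [h2] at h1
  exact fin3_ne _ h1

theorem nu_swap (E : Emb 𝒞 n) {e e' : V × V} (h : 𝒞.IsEdge e) (h' : 𝒞.IsEdge e')
    (h1 : E.ν e.1 = E.ν e'.2) (h2 : E.ν e.2 = E.ν e'.1) : False := by
  have t1 := E.sep _ _ h1
  have t2 := E.sep _ _ h2
  rw [ty_edge h'] at t1
  rw [ty_edge h] at t2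
  rw [← t2] at t1
  exact fin3_ne' _ t1

theorem good_unique (E : Emb 𝒞 n) {e e' : V × V} (h : E.Good e) (h' : E.Good e') {i j : Fin n}
    (hi : E.img e = (i, j) ∨ E.img e = (j, i)) (hi' : E.img e' = (i, j) ∨ E.img e' = (j, i)) :
    e' = e := by
  have key : E.img e' = E.img e → e' = e := fun hh => h.2 e' h'.1 hh
  have key2 : E.img e' = ((E.img e).2, (E.img e).1) → False := by
    intro hh
    have h1 : E.ν e'.1 = E.ν e.2 := congrArg Prod.fst hh
    have h2 : E.ν e'.2 = E.ν e.1 := congrArg Prod.snd hh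
    exact nu_swap E h'.1 h.1 h1 h2
  rcases hi with hi | hi <;> rcases hi' with hi' | hi'
  · exact key (hi'.trans hi.symm)
  · exact (key2 (by rw [hi', hi])).elim
  · exact (key2 (by rw [hi', hi])).elim
  · exact key (hi'.trans hi.symm)

end

/-- I-1 -/
theorem stValid : StValid := by
  intro X V _ 𝒞 n E W hW
  refine ⟨?_, ?_, ?_, ?_⟩
  · intro i j
    simp only [Emb.inst]
    congr 1
    simp only [or_comm]
  · intro i
    simp only [Emb.inst, decide_eq_false_iff_not]
    rintro ⟨e, he, h | h⟩ <;>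
    · have h1 : E.ν e.1 = i := congrArg Prod.fst h
      have h2 : E.ν e.2 = i := congrArg Prod.snd h
      exact nu_ne E he.1 (h1.trans h2.symm)
  · intro i j
    simp only [Emb.inst]
    refine Finset.sum_congr rfl fun e _ => ?_
    simp only [or_comm]
  · intro i j
    simp only [Emb.inst]
    by_cases hex : ∃ e, E.Good e ∧ (E.img e = (i, j) ∨ E.img e = (j, i))
    · obtain ⟨e, he, hi⟩ := hex
      rw [Finset.sum_eq_single e]
      · rw [if_pos ⟨he, hi⟩]; exact hW e
      · intro e' _ hne
        rw [if_neg]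
        rintro ⟨he', hi'⟩
        exact hne (good_unique E he he' hi hi')
      · intro h; exact absurd (Finset.mem_univ _) h
    · rw [Finset.sum_eq_zero]
      · rw [abs_zero]; positivity
      · intro e _
        rw [if_neg]
        intro h; exact hex ⟨e, h⟩

/-- I-2 -/
theorem stEval : StEval := by
  intro X V _ 𝒞 n E W q
  simp only [evalZ, pair, Emb.inst, Emb.qf]
  congr 1
  simp only [Finset.mul_sum]
  have hswap : ∑ i, ∑ j, ∑ e, (q.a i j *
      if E.Good e ∧ (E.img e = (i, j) ∨ E.img e = (j, i)) then W e else 0) =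
      ∑ e, ∑ i, ∑ j, (q.a i j *
      if E.Good e ∧ (E.img e = (i, j) ∨ E.img e = (j, i)) then W e else 0) := by
    rw [Finset.sum_congr rfl (fun i _ => Finset.sum_comm)]
    exact Finset.sum_comm
  rw [hswap]
  refine Finset.sum_congr rfl fun e _ => ?_
  by_cases he : E.Good e
  · have hne : E.ν e.1 ≠ E.ν e.2 := nu_ne E he.1
    rw [if_pos he]
    have h1 : ∀ i j, (q.a i j *
        if E.Good e ∧ (E.img e = (i, j) ∨ E.img e = (j, i)) then W e else 0) =
        (if i = E.ν e.1 then if j = E.ν e.2 then q.a i j * W e else 0 else 0) +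
        (if i = E.ν e.2 then if j = E.ν e.1 then q.a i j * W e else 0 else 0) := by
      intro i j
      have himg : E.img e = (E.ν e.1, E.ν e.2) := rfl
      by_cases c1 : i = E.ν e.1 ∧ j = E.ν e.2
      · obtain ⟨rfl, rfl⟩ := c1
        rw [if_pos ⟨he, Or.inl himg⟩, if_pos rfl, if_pos rfl, if_neg hne, add_zero]
      · by_cases c2 : i = E.ν e.2 ∧ j = E.ν e.1
        · obtain ⟨rfl, rfl⟩ := c2
          rw [if_pos ⟨he, Or.inr himg⟩, if_neg hne.symm, if_pos rfl, if_pos rfl, zero_add]
        · rw [if_neg]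
          · rw [mul_zero]
            have e1 : (if i = E.ν e.1 then if j = E.ν e.2 then q.a i j * W e else 0 else 0) = 0 := by
              split_ifs with a b
              · exact absurd ⟨a, b⟩ c1
              · rfl
              · rfl
            have e2 : (if i = E.ν e.2 then if j = E.ν e.1 then q.a i j * W e else 0 else 0) = 0 := by
              split_ifs with a b
              · exact absurd ⟨a, b⟩ c2
              · rfl
              · rfl
            rw [e1, e2, add_zero]
          · rintro ⟨_, h | h⟩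
            · rw [himg] at h
              exact c1 ⟨(congrArg Prod.fst h).symm, (congrArg Prod.snd h).symm⟩
            · rw [himg] at h
              exact c2 ⟨(congrArg Prod.snd h).symm, (congrArg Prod.fst h).symm⟩
    simp only [h1, Finset.sum_add_distrib]
    simp [Emb.img]
    ring
  · rw [if_neg he, zero_mul]
    refine Finset.sum_eq_zero fun i _ => Finset.sum_eq_zero fun j _ => ?_
    rw [if_neg (fun h => he h.1), mul_zero]

end Pool.Agent.Helper90.FL
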